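import Pool.Agent.Helper36_M1D.Stmts

set_option autoImplicit false
open Set Topology Filter

namespace Pool.Agent.MD.H25

noncomputable def S (m : ℕ) (c : Cant) : ℝ :=
  ∑ i ∈ Finset.range m, if c i then (1 : ℝ) / (i + 1) else 0

theorem Nc_eq (m : ℕ) (c : Cant) : Nc m c = min 1 (S m c) := rfl

theorem S_mono (c : Cant) : Monotone (fun m => S m c) := by
  intro a b hab
  refine Finset.sum_le_sum_of_subset_of_nonneg (Finset.range_mono hab) fun i _ _ => ?_
  split_ifs <;> positivity

theorem S_congr {m : ℕ} {c c' : Cant} (h : ∀ i < m, c i = c' i) : S m c = S m c' := by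
  unfold S
  refine Finset.sum_congr rfl fun i hi => ?_
  rw [h i (Finset.mem_range.1 hi)]

theorem S_succ (m : ℕ) (c : Cant) : S (m + 1) c = S m c + if c m then (1 : ℝ) / (m + 1) else 0 := by
  unfold S
  rw [Finset.sum_range_succ]

theorem bdd (c : Cant) : BddAbove (Set.range fun m => Nc m c) :=
  ⟨1, by rintro _ ⟨m, rfl⟩; exact Nc_le m c⟩

theorem NNc_le (c : Cant) : NNc c ≤ 1 := ciSup_le fun m => Nc_le m c

theorem le_NNc (m : ℕ) (c : Cant) : Nc m c ≤ NNc c := le_ciSup (bdd c) m

/-- finitely supported. -/
theorem NNc_fin {n : ℕ} {c : Cant} (h : ∀ i, n ≤ i → c i = false) : NNc c = min 1 (S n c) := by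
  apply le_antisymm
  · refine ciSup_le fun m => ?_
    rw [Nc_eq]
    refine min_le_min le_rfl ?_
    rcases le_total m n with hm | hm
    · exact S_mono c hm
    · have : S m c = S n c := by
        obtain ⟨d, rfl⟩ := Nat.exists_eq_add_of_le hm
        clear hm
        induction d with
        | zero => rfl
        | succ d ih =>
          rw [← Nat.add_assoc, S_succ, ih, h (n + d) (Nat.le_add_right n d)]
          simp
      rw [this]
  · exact le_NNc n c

theorem tendsto_S {c : Cant} (h : ∀ m, S m c ≤ 1) : Tendsto (fun m => S m c) atTop (𝓝 (NNc c)) := by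
  have h1 : (fun m => S m c) = fun m => Nc m c := by
    funext m
    rw [Nc_eq, min_eq_right (h m)]
  rw [h1]
  exact tendsto_atTop_ciSup (Nc_mono c) (bdd c)

theorem erd : ERD := by
  classical
  intro H h0 hH
  by_contra hcon
  push Not at hcon
  have hlt : ∀ c ∈ H, NNc c < 1 := fun c hc => lt_of_le_of_ne (NNc_le c) (hcon c hc)
  -- greedy sequence
  let x : ℕ → Cant := fun n => Nat.rec (fun _ => false)
    (fun n r => if Function.update r n true ∈ H then Function.update r n true else r) n
  have hx0 : x 0 = fun _ => false := rfl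
  have hxs : ∀ n, x (n + 1) = if Function.update (x n) n true ∈ H
      then Function.update (x n) n true else x n := fun n => rfl
  have hxH : ∀ n, x n ∈ H := by
    intro n
    induction n with
    | zero => exact h0
    | succ n ih =>
      rw [hxs]
      split_ifs with h
      · exact h
      · exact ih
  have hxz : ∀ n i, n ≤ i → x n i = false := by
    intro n
    induction n with
    | zero => intro i _; rfl
    | succ n ih =>
      intro i hi
      rw [hxs]
      have hne : i ≠ n := by omega
      split_ifs with h
      · rw [Function.update_of_ne hne]; exact ih i (by omega)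
      · exact ih i (by omega)
  have hxstep : ∀ n i, i ≠ n → x (n + 1) i = x n i := by
    intro n i hi
    rw [hxs]
    split_ifs with h
    · rw [Function.update_of_ne hi]
    · rfl
  have hxst : ∀ i n, i < n → x n i = x (i + 1) i := by
    intro i n hin
    have hin' : i + 1 ≤ n := hin
    clear hin
    induction n, hin' using Nat.le_induction with
    | base => rfl
    | succ m hm ih =>
      rw [hxstep _ _ (by omega)]
      exact ih
  -- the limit
  let z : Cant := fun i => x (i + 1) i
  have hxz' : ∀ i n, i < n → x n i = z i := hxst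
  have hSx : ∀ n, S n (x n) = S n z := fun n => S_congr fun i hi => hxz' i n hi
  have hNx : ∀ n, NNc (x n) = S n z := by
    intro n
    have h1 := NNc_fin (hxz n)
    have h2 := hlt _ (hxH n)
    rw [h1] at h2 ⊢
    rw [← hSx n]
    rcases min_lt_iff.1 h2 with h | h
    · exact absurd h (lt_irrefl _)
    · exact min_eq_right h.le
  have hSz : ∀ n, S n z < 1 := by
    intro n
    rw [← hNx n]
    exact hlt _ (hxH n)
  have hTS : Tendsto (fun n => S n z) atTop (𝓝 (NNc z)) := tendsto_S fun m => (hSz m).le
  have hxt : Tendsto x atTop (𝓝 z) := by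
    rw [tendsto_pi_nhds]
    intro i
    refine tendsto_const_nhds.congr' ?_
    filter_upwards [eventually_gt_atTop i] with n hn
    exact (hxz' i n hn).symm
  have hNt : Tendsto (fun n => NNc (x n)) atTop (𝓝 (NNc z)) := by
    simpa only [hNx] using hTS
  have hzH : z ∈ H := by
    obtain ⟨n, hn⟩ := (hH x z hxt hNt).exists
    exact hn.1 (hxH n)
  -- the second sequence
  let y : ℕ → Cant := fun n => Function.update (x n) n true
  have hyt : Tendsto y atTop (𝓝 z) := by
    rw [tendsto_pi_nhds]
    intro i
    refine tendsto_const_nhds.congr' ?_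
    filter_upwards [eventually_gt_atTop i] with n hn
    show z i = Function.update (x n) n true i
    rw [Function.update_of_ne (by omega)]
    exact (hxz' i n hn).symm
  have hyN : ∀ n, NNc (y n) = min 1 (S n z + 1 / ((n : ℝ) + 1)) := by
    intro n
    have h1 : ∀ i, n + 1 ≤ i → y n i = false := by
      intro i hi
      show Function.update (x n) n true i = false
      rw [Function.update_of_ne (by omega)]
      exact hxz n i (by omega)
    rw [NNc_fin h1, S_succ]
    have h2 : y n n = true := by
      show Function.update (x n) n true n = true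
      simp
    rw [h2, ← hSx n]
    have h3 : S n (y n) = S n (x n) := S_congr fun i hi => by
      show Function.update (x n) n true i = x n i
      rw [Function.update_of_ne (by omega)]
    rw [h3]
    simp
  have hyNt : Tendsto (fun n => NNc (y n)) atTop (𝓝 (NNc z)) := by
    have h1 : Tendsto (fun n : ℕ => S n z + 1 / ((n : ℝ) + 1)) atTop (𝓝 (NNc z + 0)) :=
      hTS.add tendsto_one_div_add_atTop_nhds_zero_nat
    have h2 : Tendsto (fun n : ℕ => min 1 (S n z + 1 / ((n : ℝ) + 1))) atTop
        (𝓝 (min 1 (NNc z + 0))) := tendsto_const_nhds.min h1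
    rw [add_zero, min_eq_right (NNc_le z)] at h2
    simpa only [hyN] using h2
  have hev := hH y z hyt hyNt
  rw [eventually_atTop] at hev
  obtain ⟨n0, hn0⟩ := hev
  have hz1 : ∀ n, n0 ≤ n → z n = true := by
    intro n hn
    have hy : y n ∈ H := (hn0 n hn).2 hzH
    show x (n + 1) n = true
    rw [hxs, if_pos hy]
    simp
  -- divergence
  have hdiv := Real.tendsto_sum_range_one_div_nat_succ_atTop
  have hle' : ∀ n, ∑ i ∈ Finset.range n, (1 : ℝ) / (i + 1) ≤ S n z + ((min n n0 : ℕ) : ℝ) := by
    intro n
    induction n with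
    | zero => simp [S]
    | succ n ih =>
      rw [Finset.sum_range_succ, S_succ]
      have hpos : (0 : ℝ) < (n : ℝ) + 1 := by positivity
      rcases lt_or_ge n n0 with h | h
      · have h1 : min (n + 1) n0 = min n n0 + 1 := by omega
        rw [h1]
        push_cast
        have h2 : (1 : ℝ) / ((n : ℝ) + 1) ≤ 1 := by
          rw [div_le_one hpos]
          have : (0 : ℝ) ≤ n := Nat.cast_nonneg n
          linarith
        have h3 : (0 : ℝ) ≤ if z n = true then (1 : ℝ) / (n + 1) else 0 := by
          split_ifs <;> positivity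
        have h4 : ((min n n0 : ℕ) : ℝ) = min (n : ℝ) (n0 : ℝ) := by push_cast; rfl
        rw [h4] at ih
        linarith
      · have h1 : min (n + 1) n0 = min n n0 := by omega
        rw [h1, hz1 n h, if_pos rfl]
        linarith
  have hle : ∀ n, ∑ i ∈ Finset.range n, (1 : ℝ) / (i + 1) ≤ S n z + (n0 : ℝ) := by
    intro n
    refine (hle' n).trans ?_
    have : ((min n n0 : ℕ) : ℝ) ≤ (n0 : ℝ) := by exact_mod_cast min_le_right n n0
    linarith
  have hbd : ∀ n, ∑ i ∈ Finset.range n, (1 : ℝ) / (i + 1) ≤ 1 + (n0 : ℝ) := fun n =>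
    (hle n).trans (by linarith [hSz n])
  obtain ⟨n, hn⟩ := (hdiv.eventually_gt_atTop (1 + (n0 : ℝ))).exists
  exact absurd (hbd n) (not_le.2 hn)

end Pool.Agent.MD.H25
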