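import Pool.Agent.Helper36_M1D.Stmts

set_option autoImplicit false
open Set Topology Filter

namespace Pool.Agent.MD.H25

theorem step (hSW : SWELL) {Z : Type} [TopologicalSpace Z] [NormalSpace Z] {k : ℕ}
    (U : Fin k → Set Z) (hUo : ∀ i, IsOpen (U i)) (hUc : (⋃ i, U i) = univ)
    (F : Set Z) (hF : IsClosed F) (hd : DimLe1On F) :
    ∃ U' : Fin k → Set Z, (∀ i, IsOpen (U' i)) ∧ (⋃ i, U' i) = univ ∧
      (∀ i, closure (U' i) ⊆ U i) ∧ ∀ x ∈ F, {i | x ∈ closure (U' i)}.ncard ≤ 2 := by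
  obtain ⟨A, hAc, hAU, hFA, hAn⟩ := hd k U hUo (hUc ▸ subset_univ F)
  obtain ⟨O, hOo, hAO, hOU, hOn⟩ := hSW Z k A U hAc hUo hAU hAn
  have hWo : ∀ i, IsOpen ((U i \ F) ∪ O i) := fun i => ((hUo i).sdiff hF).union (hOo i)
  have hWc : (⋃ i, ((U i \ F) ∪ O i)) = univ := by
    rw [eq_univ_iff_forall]
    intro x
    by_cases hx : x ∈ F
    · obtain ⟨i, hi⟩ := mem_iUnion.1 (hFA hx)
      exact mem_iUnion.2 ⟨i, Or.inr (hAO i hi)⟩
    · have hx' : x ∈ ⋃ i, U i := hUc ▸ mem_univ x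
      obtain ⟨i, hi⟩ := mem_iUnion.1 hx'
      exact mem_iUnion.2 ⟨i, Or.inl ⟨hi, hx⟩⟩
  obtain ⟨v, hvc, hvo, hv⟩ := exists_iUnion_eq_closure_subset hWo
    (fun x => Set.toFinite _) hWc
  refine ⟨v, hvo, hvc, fun i => (hv i).trans ?_, fun x hx => ?_⟩
  · exact union_subset sdiff_subset (subset_closure.trans (hOU i))
  · refine le_trans (Set.ncard_le_ncard ?_ (Set.toFinite _)) (hOn x)
    intro i hi
    rcases hv i hi with h | h
    · exact absurd hx h.2
    · exact h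

theorem sum (hSW : SWELL) : SUM := by
  intro Z _ _ ι _ F hF hFc hd k U hUo hUc
  rcases isEmpty_or_nonempty ι with hι | hι
  · have hZ : ∀ x : Z, False := by
      intro x
      have : x ∈ ⋃ i, F i := hFc ▸ mem_univ x
      obtain ⟨i, -⟩ := mem_iUnion.1 this
      exact hι.elim i
    exact ⟨fun _ => ∅, fun _ => isClosed_empty, fun _ => empty_subset _,
      fun x _ => (hZ x).elim, fun x => (hZ x).elim⟩
  obtain ⟨e, he⟩ := exists_surjective_nat ι
  have hUc' : (⋃ i, U i) = univ := univ_subset_iff.1 hUc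
  -- the recursion
  have hst := fun (s : {U : Fin k → Set Z // (∀ i, IsOpen (U i)) ∧ (⋃ i, U i) = univ}) (n : ℕ) =>
    step hSW s.1 s.2.1 s.2.2 (F (e n)) (hF _) (hd _)
  choose g hg1 hg2 hg3 hg4 using hst
  let s : ℕ → {U : Fin k → Set Z // (∀ i, IsOpen (U i)) ∧ (⋃ i, U i) = univ} := fun n =>
    Nat.rec ⟨U, hUo, hUc'⟩ (fun n r => ⟨g r n, hg1 r n, hg2 r n⟩) n
  have hs0 : (s 0).1 = U := rfl
  have hs : ∀ n, (s (n + 1)).1 = g (s n) n := fun n => rfl
  have hcl : ∀ n i, closure ((s (n + 1)).1 i) ⊆ (s n).1 i := by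
    intro n i
    rw [hs]
    exact hg3 (s n) n i
  have hanti : ∀ i, Antitone (fun n => (s n).1 i) := by
    intro i
    exact antitone_nat_of_succ_le fun n => subset_closure.trans (hcl n i)
  refine ⟨fun i => ⋂ n, closure ((s (n + 1)).1 i), fun i => isClosed_iInter fun n => isClosed_closure,
    fun i => (iInter_subset _ 0).trans (hcl 0 i), ?_, ?_⟩
  · intro x _
    by_contra hx
    simp only [mem_iUnion, mem_iInter, not_exists, not_forall] at hx
    choose m hm using hx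
    obtain ⟨N, hN⟩ : ∃ N, ∀ i, m i ≤ N := by
      refine ⟨Finset.univ.sup m, fun i => Finset.le_sup (Finset.mem_univ i)⟩
    have : x ∈ ⋃ i, (s (N + 1)).1 i := by
      rw [(s (N + 1)).2.2]
      exact mem_univ x
    obtain ⟨i, hi⟩ := mem_iUnion.1 this
    exact hm i (subset_closure (hanti i (Nat.succ_le_succ (hN i)) hi))
  · intro x
    have : x ∈ ⋃ i, F i := hFc ▸ mem_univ x
    obtain ⟨j, hj⟩ := mem_iUnion.1 this
    obtain ⟨n, rfl⟩ := he j
    refine le_trans (Set.ncard_le_ncard ?_ (Set.toFinite _)) (hg4 (s n) n x hj)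
    intro i hi
    have h := mem_iInter.1 hi n
    rw [hs] at h
    exact h

end Pool.Agent.MD.H25
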